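import Pool.Agent.Helper4.It.Goals
import Pool.Agent.Helper62.MonoW.ZEvalW
import Pool.Agent.Helper89.Comp.P2

/-!
# Packet IT T5: ZEvalT and ZrealContT
-/

namespace Mono

namespace It

open Finset Filter Topology Mono.Comp

open H3h in
theorem T5.coef {e d : ℕ} {s : ℝ} (hs : 0 < s) :
    Good (s : ℂ) (if d = 0 then 1 else if e = 1 then RatFunc.X / (RatFunc.X + 1) * (-1) ^ d
      else (-1) ^ d) ((cT e d s : ℝ) : ℂ) := by
  unfold cT cDL
  by_cases hd : d = 0
  · subst hd
    simp only [if_true, pow_zero, ite_self, Complex.ofReal_one]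
    exact good_one
  · simp only [if_neg hd]
    by_cases he : e = 1
    · simp only [if_pos he]
      rw [Complex.ofReal_mul, Complex.ofReal_div, Complex.ofReal_pow, Complex.ofReal_neg,
        Complex.ofReal_add, Complex.ofReal_one]
      refine (good_X.div (good_X.add good_one) ?_).mul (good_neg_one.pow _)
      have : ((s + 1 : ℝ) : ℂ) ≠ 0 := by
        rw [Ne, Complex.ofReal_eq_zero]
        positivity
      simpa using this
    · simp only [if_neg he]
      rw [Complex.ofReal_pow, Complex.ofReal_neg, Complex.ofReal_one]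
      exact good_neg_one.pow _

open H3h in
theorem zEvalT : ZEvalT := by
  intro n e ν A T hν hA s hs
  have key : Good (s : ℂ) (ZDLt e ν A T) ((ZrealT e (nuR ν) A T s : ℝ) : ℂ) := by
    unfold ZDLt ZrealT
    rw [Complex.ofReal_sum]
    refine good_sum _ _ _ fun φ _ => ?_
    rw [Complex.ofReal_mul, Complex.ofReal_mul]
    refine ((Good.mul (T5.coef hs) ?_)).mul ?_
    · rw [Complex.ofReal_intCast]
      exact good_C _
    · rw [Complex.ofReal_sum]
      refine good_sum _ _ _ fun δ hδ => ?_
      have hface : T.IsFace δ := (Fan.mem_faces T).1 (Finset.mem_filter.1 hδ).1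
      rw [Complex.ofReal_div, Complex.ofReal_prod, Complex.ofReal_natCast]
      refine (good_C _).div (good_prod _ _ _ fun a ha => ?_) ?_
      · rw [Complex.ofReal_add, Complex.ofReal_mul, Complex.ofReal_intCast]
        refine ((good_C _).mul good_X).add ?_
        refine (good_C _).congr ?_
        unfold dotProduct
        rw [Complex.ofReal_sum]
        exact Finset.sum_congr rfl fun i _ => by
          rw [Complex.ofReal_mul, nuR_apply, toR_apply, Complex.ofReal_intCast,
            Complex.ofReal_natCast]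
      · rw [Finset.prod_ne_zero_iff]
        intro a ha
        rw [Ne, Complex.ofReal_eq_zero]
        have h1 : 0 ≤ (NA A a : ℝ) := by
          exact_mod_cast NA_nonneg A hA a
            (T.vert_nonneg a (Fan.IsFace.subset_vert T hface ha))
        have h2 : 0 < nuR ν ⬝ᵥ toR a :=
          P2.dot_pos (fun i => by rw [nuR_apply]; exact_mod_cast hν i) T hface ha
        positivity
  exact key

theorem zrealContT : ZrealContT := by
  intro n e w θ A T hw _ hA s hs
  unfold ZrealT
  refine tendsto_finsetSum _ fun φ _ => ?_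
  refine Tendsto.const_mul _ ?_
  refine tendsto_finsetSum _ fun δ hδ => ?_
  have hface : T.IsFace δ := (Fan.mem_faces T).1 (Finset.mem_filter.1 hδ).1
  refine Tendsto.div tendsto_const_nhds ?_ ?_
  · refine tendsto_finsetProd _ fun a _ => ?_
    refine Tendsto.const_add _ ?_
    have h1 : ∀ ε : ℝ, (w + ε • θ) ⬝ᵥ toR a = w ⬝ᵥ toR a + ε * (θ ⬝ᵥ toR a) := by
      intro ε
      rw [add_dotProduct, smul_dotProduct, smul_eq_mul]
    simp only [h1]
    have h2 : Tendsto (fun ε : ℝ => w ⬝ᵥ toR a + ε * (θ ⬝ᵥ toR a)) (𝓝 0)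
        (𝓝 (w ⬝ᵥ toR a + 0 * (θ ⬝ᵥ toR a))) :=
      (tendsto_id.mul_const _).const_add _
    rw [zero_mul, add_zero] at h2
    exact h2.mono_left nhdsWithin_le_nhds
  · rw [Finset.prod_ne_zero_iff]
    intro a ha
    have h1 : 0 ≤ (NA A a : ℝ) := by
      exact_mod_cast H3h.NA_nonneg A hA a
        (T.vert_nonneg a (Fan.IsFace.subset_vert T hface ha))
    have h2 := P2.dot_pos hw T hface ha
    positivity

end It

end Mono
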