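import Pool.Agent.Helper4.It.Goals
import Pool.Agent.Helper20.Mono.GoalsH

/-!
# Packet IT T2: the relation with `W`
-/

namespace Mono

namespace It

open Finset Filter Topology Mono.Comp

/-- the computation inside one maximal cone -/
theorem T2.cone {n : ℕ} (E F : Finset (Fin n → ℤ)) (v : Finset (Fin n → ℤ) → ℝ) (h0 : v ∅ = 0)
    (c : (Fin n → ℤ) → ℝ) :
    ∑ τ ∈ E.powerset.filter (fun τ => τ.Nonempty),
      (-1) ^ (τ.card - 1) * (v τ / ∏ u ∈ F \ τ, c u) =
    -∑ τ ∈ E.powerset, (-1) ^ τ.card * v τ / ∏ u ∈ F \ τ, c u := by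
  classical
  have h2 : E.powerset.filter (fun τ => τ.Nonempty) = E.powerset.erase ∅ := by
    ext τ
    simp only [Finset.mem_filter, Finset.mem_erase, Finset.nonempty_iff_ne_empty]
    tauto
  rw [h2, ← Finset.sum_erase_add E.powerset _ (Finset.empty_mem_powerset E), h0, mul_zero,
    zero_div, add_zero, ← Finset.sum_neg_distrib]
  refine Finset.sum_congr rfl fun τ hτ => ?_
  have hne : τ.Nonempty := by
    rw [Finset.nonempty_iff_ne_empty]
    exact (Finset.mem_erase.1 hτ).1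
  obtain ⟨m, hm⟩ : ∃ m, τ.card = m + 1 := ⟨τ.card - 1, by
    have := Finset.card_pos.2 hne
    omega⟩
  rw [hm, Nat.add_sub_cancel, pow_succ]
  ring

theorem zwIdentityT (hP : Primal) : ZWIdentityT := by
  classical
  intro n A Z Φ T hn hTri hAd w hw s h1 h2 h3 c hc0
  obtain ⟨hAne, hA0, hA00, hdis, hvert, hNew, hNice⟩ := hTri
  have hvZ : Φ.vert \ Z = A := by
    rw [hvert, Finset.union_sdiff_right]
    exact Finset.sdiff_eq_self_of_disjoint hdis
  have hmem : ∀ F ∈ Φ.mx, ∀ τ : Finset (Fin n → ℤ), τ ⊆ F \ Z ↔ (τ ⊆ A ∧ τ ⊆ F) := by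
    intro F hF τ
    constructor
    · intro h
      refine ⟨fun u hu => ?_, fun u hu => (Finset.mem_sdiff.1 (h hu)).1⟩
      rw [← hvZ, Finset.mem_sdiff]
      exact ⟨Φ.mx_sub F hF (Finset.mem_sdiff.1 (h hu)).1, (Finset.mem_sdiff.1 (h hu)).2⟩
    · rintro ⟨h4, h5⟩ u hu
      rw [Finset.mem_sdiff]
      exact ⟨h5 hu, fun hz => (Finset.disjoint_left.1 hdis (h4 hu)) hz⟩
  -- the primal formula
  have hstep1 : ∀ τ ∈ Φ.faces.filter (fun τ => τ.Nonempty ∧ τ ⊆ A),
      c τ * (-1) ^ (τ.card - 1) * (vol τ : ℝ) * Jsum A Z T τ s w =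
      ∑ F ∈ Φ.mx.filter (fun F => τ ⊆ F), (1 / ((idx (F : Set (Fin n → ℤ)) : ℝ) *
        (s + psi Z F w))) * ((-1) ^ (τ.card - 1) *
          ((c τ * (vol τ : ℝ) ^ 2) / ∏ u ∈ F \ τ, crd F w u)) := by
    intro τ hτ
    rw [Finset.mem_filter] at hτ
    obtain ⟨hf, hne, hsub⟩ := hτ
    have hnz : ¬ τ ⊆ Z := by
      intro h
      obtain ⟨u, hu⟩ := hne
      exact Finset.disjoint_left.1 hdis (hsub hu) (h hu)
    have hJ := hP n Φ T Z hNew (by rw [hvZ]; exact hAd) w hw s h1 (by rw [hvZ]; exact h2) h3 τ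
      ((Φ.mem_faces).1 hf) hnz
    rw [hvZ] at hJ
    have hτZ : τ \ Z = τ := by
      apply Finset.sdiff_eq_self_of_disjoint
      exact Finset.disjoint_of_subset_left hsub hdis
    have hvol : volZ Z τ = vol τ := by
      unfold volZ vol
      rw [hτZ]
      congr 1
      ext x
      simp only [Set.mem_union, Set.mem_ofPred_eq]
      constructor
      · rintro (h | ⟨h4, h5⟩)
        · exact h
        · exact absurd h5 (Finset.disjoint_left.1 hdis (hsub h4))
      · intro h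
        exact Or.inl h
    rw [hJ, hvol]
    unfold Fan.Rsum
    rw [Finset.mul_sum, Finset.mul_sum]
    refine Finset.sum_congr rfl fun F _ => ?_
    rw [div_mul_eq_div_div, div_eq_mul_one_div (1 / _) (∏ u ∈ F \ τ, crd F w u)]
    rw [div_eq_mul_one_div (c τ * (vol τ : ℝ) ^ 2)]
    ring
  rw [Finset.sum_congr rfl hstep1]
  rw [Finset.sum_comm' (t' := Φ.mx)
    (s' := fun F => (F \ Z).powerset.filter (fun τ => τ.Nonempty))]
  swap
  · intro τ F
    simp only [Finset.mem_filter, Finset.mem_powerset, Φ.mem_faces]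
    constructor
    · rintro ⟨⟨_, hne, hA⟩, hF, hτF⟩
      exact ⟨⟨(hmem F hF τ).2 ⟨hA, hτF⟩, hne⟩, hF⟩
    · rintro ⟨⟨hτ, hne⟩, hF⟩
      have := (hmem F hF τ).1 hτ
      exact ⟨⟨⟨F, hF, this.2⟩, hne, this.1⟩, hF, this.2⟩
  unfold WR
  rw [← Finset.sum_neg_distrib]
  refine Finset.sum_congr rfl fun F hF => ?_
  rw [← Finset.mul_sum, T2.cone (F \ Z) F (fun τ => c τ * (vol τ : ℝ) ^ 2)
    (by simp [hc0]) (crd F w)]
  unfold WtermR
  ring

end It

end Mono
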